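import Pool.Agent.Q188.TP.Main

/-!
# The shortest forbidden order pattern of symmetric tent maps (MP_25bc1d_an, Q1)
-/

set_option autoImplicit false

open Set Function

namespace Pool.Agent.Results.MP_25bc1d_an.ShortestForbidden

/-- The symmetric tent map `T_μ(x) = 2 μ min(x, 1 - x)`. -/
noncomputable def T (μ x : ℝ) : ℝ := 2 * μ * min x (1 - x)

/-- The pattern `π` of length `n` (`π i` is the rank of the `i`-th iterate, `0 ≤ i < n`) is an
allowed order pattern of `f : [0,1] → [0,1]`: for some `x ∈ [0,1]` the values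
`x, f(x), ..., f^{n-1}(x)` are in the same relative order as `π 0, π 1, ..., π (n-1)` (in
particular they are pairwise distinct). -/
def Allowed (f : ℝ → ℝ) (n : ℕ) (π : Equiv.Perm (Fin n)) : Prop :=
  ∃ x ∈ Icc (0 : ℝ) 1, ∀ i j : Fin n, π i < π j ↔ f^[i] x < f^[j] x

/-- The pattern `π` is `μ`-forbidden: allowed for the full tent map `T_1`, not allowed for
`T_μ`. -/
def Forbidden (μ : ℝ) (n : ℕ) (π : Equiv.Perm (Fin n)) : Prop :=
  Allowed (T 1) n π ∧ ¬ Allowed (T μ) n π

/-- The pattern `σ_n = (n-1) n 1 2 3 ... (n-2)` (with ranks and positions counted from `0`: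
`0 ↦ n - 2`, `1 ↦ n - 1` and `i ↦ i - 2` for `i ≥ 2`). -/
def sigma (n : ℕ) (hn : 2 ≤ n) : Equiv.Perm (Fin n) where
  toFun i := if h : (i : ℕ) < 2 then ⟨i + (n - 2), by omega⟩ else ⟨i - 2, by omega⟩
  invFun i := if h : (i : ℕ) < n - 2 then ⟨i + 2, by omega⟩ else ⟨i - (n - 2), by omega⟩
  left_inv i := by
    apply Fin.ext
    by_cases h : (i : ℕ) < 2
    · simp only [dif_pos h]
      rw [dif_neg (by omega)]
      simp only; omega
    · simp only [dif_neg h]
      rw [dif_pos (by omega)]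
      simp only; omega
  right_inv i := by
    apply Fin.ext
    by_cases h : (i : ℕ) < n - 2
    · simp only [dif_pos h]
      rw [dif_neg (by omega)]
      simp only; omega
    · simp only [dif_neg h]
      rw [dif_pos (by omega)]
      simp only; omega

lemma sigma_val {n : ℕ} (hn : 2 ≤ n) (i : Fin n) :
    (sigma n hn i : ℕ) = if (i : ℕ) < 2 then (i : ℕ) + (n - 2) else i - 2 := by
  change ((if h : (i : ℕ) < 2 then (⟨i + (n - 2), by omega⟩ : Fin n) else ⟨i - 2, by omega⟩ :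
    Fin n) : ℕ) = _
  split_ifs <;> rfl

lemma allowed_iff (μ : ℝ) (n : ℕ) (π : Equiv.Perm (Fin n)) :
    Allowed (T μ) n π ↔ ∃ x ∈ Icc (0 : ℝ) 1, Pool.Agent.Q188.TP.P π μ x := by
  constructor
  · rintro ⟨x, hx, h⟩
    exact ⟨x, hx, fun i j hij => (h i j).1 hij⟩
  · rintro ⟨x, hx, h⟩
    refine ⟨x, hx, fun i j => ⟨fun hij => h i j hij, fun hlt => ?_⟩⟩
    by_contra hcon
    push Not at hcon
    rcases eq_or_lt_of_le hcon with h1 | h1
    · have : j = i := π.injective h1
      rw [this] at hlt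
      exact lt_irrefl _ hlt
    · exact lt_asymm hlt (h j i h1)

/-- For every `μ ∈ (1/2, 1)`, if `n` is the smallest length of a `μ`-forbidden pattern then
`n ≥ 2` and `T_μ` avoids `σ_n`. -/
theorem result (μ : ℝ) (hμ : 1 / 2 < μ) (hμ1 : μ < 1) (n : ℕ)
    (hn : IsLeast {n : ℕ | ∃ π : Equiv.Perm (Fin n), Forbidden μ n π} n) :
    ∃ h2 : 2 ≤ n, ¬ Allowed (T μ) n (sigma n h2) := by
  obtain ⟨⟨π, h1, hπ⟩, -⟩ := hn
  have h2 : 2 ≤ n := by
    by_contra hcon
    push Not at hcon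
    apply hπ
    refine ⟨0, ⟨le_rfl, zero_le_one⟩, fun i j => ?_⟩
    have hij : i = j := Fin.ext (by omega)
    subst hij
    simp
  refine ⟨h2, fun hσ => hπ ?_⟩
  rw [allowed_iff] at hσ h1 ⊢
  obtain ⟨x, hx, hP⟩ := hσ
  have hP' : ∀ i j : ℕ, ∀ (hi : i < n) (hj : j < n),
      (if i < 2 then i + (n - 2) else i - 2) < (if j < 2 then j + (n - 2) else j - 2) →
      (Pool.Agent.Q188.TP.tent μ)^[i] x < (Pool.Agent.Q188.TP.tent μ)^[j] x := by
    intro i j hi hj hij
    refine hP ⟨i, hi⟩ ⟨j, hj⟩ ?_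
    rw [Fin.lt_def, sigma_val, sigma_val]
    exact hij
  refine Pool.Agent.Q188.TP.main h2 hμ hμ1 (x := x) ?_ (fun k hk hkn => ?_) π h1
  · have h3 := hP' 0 1 (by omega) (by omega) (by simp)
    exact h3
  · have h3 := hP' k 0 hkn (by omega) (by
      rw [if_neg (by omega), if_pos (by norm_num)]
      omega)
    exact h3

end Pool.Agent.Results.MP_25bc1d_an.ShortestForbidden
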